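import Pool.Agent.W785.FD.Stms

/-!
# `(1 - φ) 1_V` satisfies a Poincare inequality (part PAIR of project FD)
-/

set_option autoImplicit false

open MeasureTheory Metric Set Filter
open scoped ENNReal NNReal Topology

namespace Pool.Agent.W250.FDPair

open Pool.Agent.W785.FD

variable {X : Type*} [MetricSpace X] [ProperSpace X] [MeasurableSpace X] [BorelSpace X]
  {μ : Measure X} {p C L D : ℝ}

section basics

omit [ProperSpace X] [BorelSpace X]

lemma dblPow (hD : Dbl μ D) (k : ℕ) (x : X) (r : ℝ) (hr : 0 < r) :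
    μ (ball x (2 ^ k * r)) ≤ ENNReal.ofReal (D ^ k) * μ (ball x r) := by
  have hD0 : 0 ≤ D := by linarith [hD.one_le]
  induction k with
  | zero => simp
  | succ k ih =>
    have e : (2:ℝ) ^ (k+1) * r = 2 * (2 ^ k * r) := by ring
    rw [e]
    calc μ (ball x (2 * (2 ^ k * r))) ≤ ENNReal.ofReal D * μ (ball x (2 ^ k * r)) :=
          hD.dbl x _ (by positivity)
      _ ≤ ENNReal.ofReal D * (ENNReal.ofReal (D ^ k) * μ (ball x r)) := by gcongr
      _ = ENNReal.ofReal (D ^ (k+1)) * μ (ball x r) := by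
          rw [← mul_assoc, ← ENNReal.ofReal_mul hD0, pow_succ, mul_comm (D ^ k) D]

lemma dcomp (hD : Dbl μ D) (Λ : ℝ) : ∃ A : ℝ, 1 ≤ A ∧ ∀ (x : X) (r : ℝ), 0 < r →
    μ (ball x (Λ * r)) ≤ ENNReal.ofReal A * μ (ball x r) := by
  obtain ⟨k, hk⟩ := pow_unbounded_of_one_lt Λ (one_lt_two)
  refine ⟨D ^ k, one_le_pow₀ hD.one_le, fun x r hr => ?_⟩
  exact (measure_mono (ball_subset_ball (by nlinarith))).trans (dblPow hD k x r hr)

lemma lavcomp (hD : Dbl μ D) {A r R : ℝ} {x : X} (hr : 0 < r) (hrR : r ≤ R)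
    (hA : μ (ball x R) ≤ ENNReal.ofReal A * μ (ball x r)) (f : X → ℝ≥0∞) :
    lav μ f x r ≤ ENNReal.ofReal A * lav μ f x R := by
  have hp1 := (hD.pos x r hr).ne'
  have hf1 := (hD.fin x r).ne
  have hp2 := (hD.pos x R (by linarith)).ne'
  have hf2 := (hD.fin x R).ne
  unfold lav
  rw [ENNReal.div_le_iff hp1 hf1]
  calc ∫⁻ y in ball x r, f y ∂μ ≤ ∫⁻ y in ball x R, f y ∂μ :=
        lintegral_mono_set (ball_subset_ball hrR)
    _ = (∫⁻ y in ball x R, f y ∂μ) / μ (ball x R) * μ (ball x R) :=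
        (ENNReal.div_mul_cancel hp2 hf2).symm
    _ ≤ (∫⁻ y in ball x R, f y ∂μ) / μ (ball x R) * (ENNReal.ofReal A * μ (ball x r)) := by gcongr
    _ = ENNReal.ofReal A * ((∫⁻ y in ball x R, f y ∂μ) / μ (ball x R)) * μ (ball x r) := by ring

lemma lav_mono {f g : X → ℝ≥0∞} (x : X) (r : ℝ) (h : ∀ y, f y ≤ g y) :
    lav μ f x r ≤ lav μ g x r := by
  unfold lav
  gcongr with y
  exact h y

lemma rpA {A : ℝ} (hA : 1 ≤ A) (hp : 1 < p) {y z : ℝ≥0∞} (h : y ≤ ENNReal.ofReal A * z) :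
    y ^ (1 / p) ≤ ENNReal.ofReal A * z ^ (1 / p) := by
  have hp0 : 0 ≤ 1 / p := by positivity
  have hp1 : 1 / p ≤ 1 := by rw [div_le_one (by linarith)]; linarith
  calc y ^ (1 / p) ≤ (ENNReal.ofReal A * z) ^ (1 / p) := ENNReal.rpow_le_rpow h hp0
    _ = (ENNReal.ofReal A) ^ (1 / p) * z ^ (1 / p) := ENNReal.mul_rpow_of_nonneg _ _ hp0
    _ ≤ ENNReal.ofReal A * z ^ (1 / p) := by
        gcongr
        have h1 : (1 : ℝ≥0∞) ≤ ENNReal.ofReal A := by
          rw [← ENNReal.ofReal_one]; exact ENNReal.ofReal_le_ofReal hA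
        have h2 := ENNReal.rpow_le_rpow_of_exponent_le h1 hp1
        rwa [ENNReal.rpow_one] at h2

lemma ee_rpow (hp : 1 < p) (g : X → ℝ≥0∞) (Λ : ℝ) (x : X) {r : ℝ} (hr : 0 < r) :
    (ee μ p g Λ x r) ^ (1 / p) =
      ENNReal.ofReal r * (lav μ (fun y => g y ^ p) x (Λ * r)) ^ (1 / p) := by
  unfold ee
  rw [ENNReal.mul_rpow_of_nonneg _ _ (by positivity), ENNReal.ofReal_rpow_of_nonneg (by positivity)
    (by positivity), ← Real.rpow_mul hr.le, mul_one_div_cancel (by linarith), Real.rpow_one]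

lemma dens_add (hD : Dbl μ D) (V : Set X) (z : X) {s : ℝ} (hs : 0 < s) :
    1 ≤ dens μ V z s + dens μ Vᶜ z s := by
  unfold dens
  rw [← ENNReal.add_div, ENNReal.le_div_iff_mul_le (Or.inl (hD.pos z s hs).ne')
    (Or.inl (hD.fin z s).ne), one_mul]
  calc μ (ball z s) ≤ μ (V ∩ ball z s ∪ Vᶜ ∩ ball z s) := by
        refine measure_mono fun y hy => ?_
        by_cases h : y ∈ V
        · exact Or.inl ⟨h, hy⟩
        · exact Or.inr ⟨h, hy⟩
    _ ≤ _ := measure_union_le _ _

/-- at a point of density of `V` where `V` has small density at scale `r` there is an ambiguous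
scale -/
lemma exists_scale (hD : Dbl μ D) (V : Set X) {x z : X} {r : ℝ} (hr : 0 < r) (hzx : dist z x < r)
    (hdens : dens μ V x (2 * r) < ENNReal.ofReal (1 / (2 * D ^ 2))) (hz : DZ μ Vᶜ z) :
    ∃ j : ℕ, Amb μ V (1 / (2 * D ^ 2)) z (r / 2 ^ j) := by
  have hD1 := hD.one_le
  have hD0 : 0 < D := by linarith
  -- at scale `r`
  have h0 : dens μ V z r ≤ ENNReal.ofReal (1 / 2) := by
    unfold dens
    rw [ENNReal.div_le_iff (hD.pos z r hr).ne' (hD.fin z r).ne]
    have h1 : μ (V ∩ ball x (2 * r)) ≤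
        ENNReal.ofReal (1 / (2 * D ^ 2)) * μ (ball x (2 * r)) := by
      have := hdens.le
      unfold dens at this
      rwa [ENNReal.div_le_iff (hD.pos x _ (by positivity)).ne' (hD.fin x _).ne] at this
    calc μ (V ∩ ball z r) ≤ μ (V ∩ ball x (2 * r)) := by
          refine measure_mono (inter_subset_inter_right _ (ball_subset_ball' ?_))
          linarith
      _ ≤ ENNReal.ofReal (1 / (2 * D ^ 2)) * μ (ball x (2 * r)) := h1
      _ ≤ ENNReal.ofReal (1 / (2 * D ^ 2)) * μ (ball z (2 ^ 2 * r)) := by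
          gcongr
          refine ball_subset_ball' ?_
          rw [dist_comm]; linarith
      _ ≤ ENNReal.ofReal (1 / (2 * D ^ 2)) * (ENNReal.ofReal (D ^ 2) * μ (ball z r)) := by
          gcongr
          exact dblPow hD 2 z r hr
      _ = ENNReal.ofReal (1 / 2) * μ (ball z r) := by
          rw [← mul_assoc, ← ENNReal.ofReal_mul (by positivity)]
          congr 2
          field_simp
  -- some scale with large density
  have hex : ∃ i : ℕ, ¬ dens μ V z (r / 2 ^ i) ≤ ENNReal.ofReal (1 / 2) := by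
    have h1 : Tendsto (fun i : ℕ => r / 2 ^ i) atTop (𝓝[>] 0) := by
      rw [tendsto_nhdsWithin_iff]
      refine ⟨?_, Eventually.of_forall fun i => by simp only [mem_Ioi]; positivity⟩
      have : Tendsto (fun i : ℕ => r * (1 / 2 : ℝ) ^ i) atTop (𝓝 (r * 0)) :=
        (tendsto_pow_atTop_nhds_zero_of_lt_one (by norm_num) (by norm_num)).const_mul r
      rw [mul_zero] at this
      refine this.congr fun i => ?_
      rw [one_div, inv_pow, div_eq_mul_inv]
    have h2 := hz.comp h1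
    have h3 : ∀ᶠ i : ℕ in atTop, dens μ Vᶜ z (r / 2 ^ i) < ENNReal.ofReal (1 / 2) :=
      h2.eventually (gt_mem_nhds (by simp))
    obtain ⟨i, hi⟩ := h3.exists
    refine ⟨i, fun hc => ?_⟩
    have h4 := dens_add hD V z (s := r / 2 ^ i) (by positivity)
    have h5 : dens μ V z (r / 2 ^ i) + dens μ Vᶜ z (r / 2 ^ i) <
        ENNReal.ofReal (1 / 2) + ENNReal.ofReal (1 / 2) :=
      ENNReal.add_lt_add_of_le_of_lt (ne_top_of_le_ne_top ENNReal.ofReal_ne_top hc) hc hi
    rw [← ENNReal.ofReal_add (by norm_num) (by norm_num)] at h5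
    norm_num at h5
    exact absurd h4 (not_le.2 h5)
  classical
  set i := Nat.find hex with hi
  have hi1 : ¬ dens μ V z (r / 2 ^ i) ≤ ENNReal.ofReal (1 / 2) := Nat.find_spec hex
  have hi0 : i ≠ 0 := by
    intro hc
    rw [hc] at hi1
    simp only [pow_zero, div_one] at hi1
    exact hi1 h0
  obtain ⟨j, hj⟩ := Nat.exists_eq_succ_of_ne_zero hi0
  have hj1 : dens μ V z (r / 2 ^ j) ≤ ENNReal.ofReal (1 / 2) := by
    by_contra hc
    have := Nat.find_min' hex hc
    omega
  have hs : 0 < r / 2 ^ j := by positivity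
  have hs2 : r / 2 ^ i = (r / 2 ^ j) / 2 := by
    rw [hj, Nat.succ_eq_add_one, pow_succ, div_div]
  have ht : ENNReal.ofReal (1 / (2 * D ^ 2)) ≤ ENNReal.ofReal (1 / 2) := by
    refine ENNReal.ofReal_le_ofReal ?_
    rw [div_le_div_iff₀ (by positivity) (by norm_num)]
    nlinarith
  refine ⟨j, ?_, ?_⟩
  · -- density of `V`
    unfold dens
    rw [ENNReal.le_div_iff_mul_le (Or.inl (hD.pos z _ hs).ne') (Or.inl (hD.fin z _).ne)]
    have h1 : ENNReal.ofReal (1 / 2) * μ (ball z (r / 2 ^ i)) ≤ μ (V ∩ ball z (r / 2 ^ i)) := by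
      have := (not_le.1 hi1).le
      unfold dens at this
      rwa [ENNReal.le_div_iff_mul_le (Or.inl (hD.pos z _ (by positivity)).ne')
        (Or.inl (hD.fin z _).ne)] at this
    have h2 : μ (ball z (r / 2 ^ j)) ≤ ENNReal.ofReal D * μ (ball z (r / 2 ^ i)) := by
      have := hD.dbl z (r / 2 ^ i) (by positivity)
      have e : 2 * (r / 2 ^ i) = r / 2 ^ j := by rw [hs2]; ring
      rwa [e] at this
    calc ENNReal.ofReal (1 / (2 * D ^ 2)) * μ (ball z (r / 2 ^ j))
        ≤ ENNReal.ofReal (1 / (2 * D ^ 2)) * (ENNReal.ofReal D * μ (ball z (r / 2 ^ i))) := by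
          gcongr
      _ = ENNReal.ofReal (1 / (2 * D ^ 2) * D) * μ (ball z (r / 2 ^ i)) := by
          rw [← mul_assoc, ← ENNReal.ofReal_mul (by positivity)]
      _ ≤ ENNReal.ofReal (1 / 2) * μ (ball z (r / 2 ^ i)) := by
          gcongr
          rw [div_mul_eq_mul_div, div_le_div_iff₀ (by positivity) (by norm_num)]
          nlinarith
      _ ≤ μ (V ∩ ball z (r / 2 ^ i)) := h1
      _ ≤ μ (V ∩ ball z (r / 2 ^ j)) := by
          refine measure_mono (inter_subset_inter_right _ (ball_subset_ball ?_))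
          rw [hs2]; linarith
  · refine ht.trans ?_
    have h4 := dens_add hD V z hs
    by_contra hc
    have hc' := not_le.1 hc
    have h5 : dens μ V z (r / 2 ^ j) + dens μ Vᶜ z (r / 2 ^ j) <
        ENNReal.ofReal (1 / 2) + ENNReal.ofReal (1 / 2) :=
      ENNReal.add_lt_add_of_le_of_lt (ne_top_of_le_ne_top ENNReal.ofReal_ne_top hj1) hj1 hc'
    rw [← ENNReal.ofReal_add (by norm_num) (by norm_num)] at h5
    norm_num at h5
    exact absurd h4 (not_le.2 h5)

lemma Pot_tail (g : X → ℝ≥0∞) (Λ r : ℝ) (z : X) (j : ℕ) :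
    Pot μ p g Λ (r / 2 ^ j) z ≤ Pot μ p g Λ r z := by
  unfold Pot
  have e : ∀ i : ℕ, ENNReal.ofReal (r / 2 ^ j / 2 ^ i) *
      (lav μ (fun y => g y ^ p) z (Λ * (r / 2 ^ j / 2 ^ i))) ^ (1 / p) =
      (fun k : ℕ => ENNReal.ofReal (r / 2 ^ k) *
        (lav μ (fun y => g y ^ p) z (Λ * (r / 2 ^ k))) ^ (1 / p)) (j + i) := by
    intro i
    simp only
    rw [div_div, ← pow_add]
  simp_rw [e]
  exact ENNReal.tsum_comp_le_tsum_of_injective (add_right_injective j) _

lemma Pot_term (g : X → ℝ≥0∞) (Λ r : ℝ) (z : X) (j : ℕ) :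
    ENNReal.ofReal (r / 2 ^ j) * (lav μ (fun y => g y ^ p) z (Λ * (r / 2 ^ j))) ^ (1 / p) ≤
      Pot μ p g Λ r z := by
  unfold Pot
  exact ENNReal.le_tsum (f := fun i : ℕ => ENNReal.ofReal (r / 2 ^ i) *
    (lav μ (fun y => g y ^ p) z (Λ * (r / 2 ^ i))) ^ (1 / p)) j

end basics

section meas

lemma meas_int [SFinite μ] {f : X → ℝ≥0∞} (hf : Measurable f) (ρ : ℝ) :
    Measurable fun z => ∫⁻ y in ball z ρ, f y ∂μ := by
  have h1 : ∀ z, ∫⁻ y in ball z ρ, f y ∂μ =
      ∫⁻ y, ({q : X × X | dist q.2 q.1 < ρ}).indicator (fun q => f q.2) (z, y) ∂μ := by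
    intro z
    rw [← lintegral_indicator measurableSet_ball]
    refine lintegral_congr fun y => ?_
    by_cases h : dist y z < ρ
    · rw [indicator_of_mem (by exact h), indicator_of_mem (by exact h)]
    · rw [indicator_of_notMem (by exact h), indicator_of_notMem (by exact h)]
  simp_rw [h1]
  have h2 : MeasurableSet {q : X × X | dist q.2 q.1 < ρ} :=
    (isOpen_lt (continuous_snd.dist continuous_fst) continuous_const).measurableSet
  have h3 : Measurable (({q : X × X | dist q.2 q.1 < ρ}).indicator (fun q => f q.2)) :=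
    (hf.comp measurable_snd).indicator h2
  exact h3.lintegral_prod_right'

lemma meas_lav [SFinite μ] {f : X → ℝ≥0∞} (hf : Measurable f) (ρ : ℝ) :
    Measurable fun z => lav μ f z ρ := by
  unfold lav
  refine (meas_int hf ρ).div ?_
  have := meas_int (μ := μ) (f := fun _ => (1 : ℝ≥0∞)) measurable_const ρ
  simpa using this

lemma meas_Pot [SFinite μ] {g : X → ℝ≥0∞} (hg : Measurable g) (Λ r : ℝ) :
    Measurable fun z => Pot μ p g Λ r z := by
  unfold Pot
  refine Measurable.ennreal_tsum fun i => ?_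
  exact ((meas_lav (hg.pow_const p) _).pow_const _).const_mul _

lemma sfin (hD : Dbl μ D) : SFinite μ := by
  haveI : IsLocallyFiniteMeasure μ := ⟨fun x => ⟨ball x 1, ball_mem_nhds x one_pos, hD.fin x 1⟩⟩
  infer_instance

omit [ProperSpace X] in
lemma bdd_int (hD : Dbl μ D) {v : X → ℝ} (hv : AEMeasurable v μ) {M : ℝ} (h1 : ∀ y, |v y| ≤ M)
    (x : X) (r : ℝ) : IntegrableOn v (ball x r) μ := by
  haveI : IsFiniteMeasure (μ.restrict (ball x r)) := ⟨by simpa using hD.fin x r⟩
  exact Integrable.of_bound hv.aestronglyMeasurable.restrict M (Eventually.of_forall h1)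

omit [ProperSpace X] in
lemma lav_ofReal (hD : Dbl μ D) {v : X → ℝ} {x : X} {r : ℝ} (hr : 0 < r)
    (hv : IntegrableOn v (ball x r) μ) (h0 : ∀ y, 0 ≤ v y) :
    lav μ (fun y => ENNReal.ofReal (v y)) x r = ENNReal.ofReal (mean μ v x r) := by
  have hB : 0 < μ.real (ball x r) := ENNReal.toReal_pos (hD.pos x r hr).ne' (hD.fin x r).ne
  unfold lav mean
  rw [setAverage_eq, smul_eq_mul, inv_mul_eq_div, ENNReal.ofReal_div_of_pos hB,
    ofReal_integral_eq_lintegral_ofReal hv (Eventually.of_forall h0), Measure.real,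
    ENNReal.ofReal_toReal (hD.fin x r).ne]

omit [ProperSpace X] in
lemma osc_le (hD : Dbl μ D) {v : X → ℝ} {x : X} {r : ℝ} (hr : 0 < r)
    (hv : IntegrableOn v (ball x r) μ) (c : ℝ) :
    osc μ v x r ≤ 2 * lav μ (fun y => ENNReal.ofReal |v y - c|) x r := by
  haveI : IsFiniteMeasure (μ.restrict (ball x r)) := ⟨by simpa using hD.fin x r⟩
  have hB : 0 < μ.real (ball x r) := ENNReal.toReal_pos (hD.pos x r hr).ne' (hD.fin x r).ne
  have hvc : IntegrableOn (fun y => v y - c) (ball x r) μ := hv.sub (integrable_const c)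
  have hva : IntegrableOn (fun y => |v y - c|) (ball x r) μ := hvc.abs
  have hm : |c - mean μ v x r| ≤ mean μ (fun y => |v y - c|) x r := by
    unfold mean
    rw [setAverage_eq, setAverage_eq, smul_eq_mul, smul_eq_mul, abs_sub_comm]
    have e : (μ.real (ball x r))⁻¹ * ∫ y in ball x r, v y ∂μ - c =
        (μ.real (ball x r))⁻¹ * ∫ y in ball x r, (v y - c) ∂μ := by
      rw [integral_sub hv (integrable_const c)]
      simp only [integral_const, smul_eq_mul, Measure.real, Measure.restrict_apply,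
        MeasurableSet.univ, univ_inter]
      rw [Measure.real] at hB
      field_simp
    rw [e, abs_mul, abs_of_pos (inv_pos.2 hB)]
    exact mul_le_mul_of_nonneg_left (abs_integral_le_integral_abs) (inv_pos.2 hB).le
  have h1 : osc μ v x r ≤ lav μ (fun y => ENNReal.ofReal |v y - c|) x r +
      ENNReal.ofReal |c - mean μ v x r| := by
    unfold osc lav
    rw [ENNReal.div_le_iff (hD.pos x r hr).ne' (hD.fin x r).ne, add_mul,
      ENNReal.div_mul_cancel (hD.pos x r hr).ne' (hD.fin x r).ne]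
    calc ∫⁻ y in ball x r, ENNReal.ofReal |v y - mean μ v x r| ∂μ
        ≤ ∫⁻ y in ball x r, (ENNReal.ofReal |v y - c| + ENNReal.ofReal |c - mean μ v x r|) ∂μ := by
          refine lintegral_mono fun y => ?_
          rw [← ENNReal.ofReal_add (abs_nonneg _) (abs_nonneg _)]
          refine ENNReal.ofReal_le_ofReal ?_
          have : v y - mean μ v x r = (v y - c) + (c - mean μ v x r) := by ring
          rw [this]; exact abs_add_le _ _
      _ = _ := by
          rw [lintegral_add_right _ measurable_const, lintegral_const, Measure.restrict_apply_univ]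
  have h2 : ENNReal.ofReal |c - mean μ v x r| ≤ lav μ (fun y => ENNReal.ofReal |v y - c|) x r := by
    rw [lav_ofReal hD hr hva fun y => abs_nonneg _]
    exact ENNReal.ofReal_le_ofReal hm
  calc osc μ v x r ≤ _ := h1
    _ ≤ lav μ (fun y => ENNReal.ofReal |v y - c|) x r +
      lav μ (fun y => ENNReal.ofReal |v y - c|) x r := by gcongr
    _ = _ := (two_mul _).symm

omit [ProperSpace X] in
/-- almost every point of `V` is a point of density zero of the complement -/
lemma ae_DZ (hD : Dbl μ D) (h1 : S_LD μ) {V : Set X} (hV : NullMeasurableSet V μ) :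
    ∀ᵐ z ∂μ, z ∈ V → DZ μ Vᶜ z := by
  classical
  set u : X → ℝ := V.indicator fun _ => 1 with hu
  have hum : AEMeasurable u μ := aemeasurable_const.indicator₀ hV
  have hLI : LI μ u := fun x r => bdd_int hD hum (M := 1) (fun y => by
    by_cases h : y ∈ V
    · simp [hu, h]
    · simp [hu, h]) x r
  filter_upwards [h1 u hLI] with z hz hzV
  have hz1 : u z = 1 := by simp [hu, hzV]
  refine hz.congr fun r => ?_
  unfold lav dens
  congr 1
  have e : ∀ y, ENNReal.ofReal |u y - u z| = (Vᶜ).indicator (fun _ => (1 : ℝ≥0∞)) y := by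
    intro y
    rw [hz1]
    by_cases h : y ∈ V
    · simp [hu, h]
    · simp [hu, h]
  simp_rw [e]
  rw [lintegral_indicator_const₀ (hV.compl.mono_ac Measure.restrict_le_self.absolutelyContinuous), one_mul, Measure.restrict_apply₀ (hV.compl.mono_ac Measure.restrict_le_self.absolutelyContinuous)]

end meas

section final

omit [ProperSpace X] [BorelSpace X] in
lemma ptw (hD : Dbl μ D) {K1 Λ1 : ℝ} (hK1 : 0 ≤ K1) (V : Set X) (φ : X → ℝ) (g : X → ℝ≥0∞)
    {x z : X} {r : ℝ} (hr : 0 < r) (hzx : dist z x < r)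
    (hdens : dens μ V x (2 * r) < ENNReal.ofReal (1 / (2 * D ^ 2))) (hz : DZ μ Vᶜ z)
    (hP : ∀ s, 0 < s → ENNReal.ofReal |φ z - mean μ φ z s| ≤
      ENNReal.ofReal (D * K1) * Pot μ p g Λ1 s z)
    (hB : ∀ s, 0 < s → Amb μ V (1 / (2 * D ^ 2)) z s → ENNReal.ofReal (1 - mean μ φ z s) ≤
      ENNReal.ofReal K1 *
        (ENNReal.ofReal s * (lav μ (fun y => g y ^ p) z (Λ1 * s)) ^ (1 / p))) :
    ENNReal.ofReal (1 - φ z) ≤ ENNReal.ofReal (K1 * (D + 1)) * Pot μ p g Λ1 r z := by
  obtain ⟨j, hj⟩ := exists_scale hD V hr hzx hdens hz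
  have hs : 0 < r / 2 ^ j := by positivity
  have hD0 : 0 ≤ D := by linarith [hD.one_le]
  calc ENNReal.ofReal (1 - φ z)
      ≤ ENNReal.ofReal (|φ z - mean μ φ z (r / 2 ^ j)| + (1 - mean μ φ z (r / 2 ^ j))) := by
        refine ENNReal.ofReal_le_ofReal ?_
        linarith [neg_abs_le (φ z - mean μ φ z (r / 2 ^ j))]
    _ ≤ ENNReal.ofReal |φ z - mean μ φ z (r / 2 ^ j)| +
        ENNReal.ofReal (1 - mean μ φ z (r / 2 ^ j)) := ENNReal.ofReal_add_le
    _ ≤ ENNReal.ofReal (D * K1) * Pot μ p g Λ1 r z + ENNReal.ofReal K1 * Pot μ p g Λ1 r z := by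
        refine add_le_add ((hP _ hs).trans ?_) ((hB _ hs hj).trans ?_)
        · gcongr
          exact Pot_tail g Λ1 r z j
        · gcongr
          exact Pot_term g Λ1 r z j
    _ = _ := by
        rw [← add_mul, ← ENNReal.ofReal_add (by positivity) hK1]
        congr 2; ring

lemma caseB [SFinite μ] (hD : Dbl μ D) (hp : 1 < p) (h3 : S_POT2 μ p D) (h4 : S_JEN μ p)
    {K1 Λ1 A : ℝ} (hK1 : 0 ≤ K1) (hΛ1 : 1 ≤ Λ1) (hA1 : 1 ≤ A)
    (hA : ∀ (x : X) (r : ℝ), 0 < r →
      μ (ball x ((2 * Λ1 + 1) * r)) ≤ ENNReal.ofReal A * μ (ball x r))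
    (V : Set X) (φ : X → ℝ) (g : X → ℝ≥0∞) (hg : Measurable g)
    {x : X} {r : ℝ} (hr : 0 < r)
    (hdens : dens μ V x (2 * r) < ENNReal.ofReal (1 / (2 * D ^ 2)))
    (hae : ∀ᵐ z ∂μ, z ∈ V → DZ μ Vᶜ z)
    (hP : ∀ᵐ z ∂μ, ∀ s, 0 < s → ENNReal.ofReal |φ z - mean μ φ z s| ≤
      ENNReal.ofReal (D * K1) * Pot μ p g Λ1 s z)
    (hB : ∀ z s, 0 < s → Amb μ V (1 / (2 * D ^ 2)) z s → ENNReal.ofReal (1 - mean μ φ z s) ≤
      ENNReal.ofReal K1 *
        (ENNReal.ofReal s * (lav μ (fun y => g y ^ p) z (Λ1 * s)) ^ (1 / p))) :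
    lav μ (fun y => ENNReal.ofReal (V.indicator (fun y => 1 - φ y) y)) x r ≤
      ENNReal.ofReal (K1 * (D + 1)) * (ENNReal.ofReal (2 * r) * (ENNReal.ofReal (D * A) *
        (lav μ (fun y => g y ^ p) x ((2 * Λ1 + 1) * r)) ^ (1 / p))) := by
  have hD1 := hD.one_le
  have hp1 := (hD.pos x r hr).ne'
  have hf1 := (hD.fin x r).ne
  have hp2 := (hD.pos x ((2 * Λ1 + 1) * r) (by positivity)).ne'
  have hf2 := (hD.fin x ((2 * Λ1 + 1) * r)).ne
  have hmP : Measurable fun z => Pot μ p g Λ1 r z := meas_Pot hg Λ1 r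
  have s1 : lav μ (fun y => ENNReal.ofReal (V.indicator (fun y => 1 - φ y) y)) x r ≤
      ENNReal.ofReal (K1 * (D + 1)) * lav μ (fun z => Pot μ p g Λ1 r z) x r := by
    unfold lav
    rw [← mul_div_assoc, ← lintegral_const_mul _ hmP]
    gcongr ?_ / _
    refine setLIntegral_mono_ae' measurableSet_ball ?_
    filter_upwards [hae, hP] with z hz1 hz2 hzb
    by_cases hzV : z ∈ V
    · rw [indicator_of_mem hzV]
      exact ptw hD hK1 V φ g hr (mem_ball.1 hzb) hdens (hz1 hzV) hz2 (hB z)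
    · rw [indicator_of_notMem hzV]
      simp
  have s2 : lav μ (fun z => Pot μ p g Λ1 r z) x r ≤
      (lav μ (fun z => Pot μ p g Λ1 r z ^ p) x r) ^ (1 / p) := h4 _ hmP.aemeasurable x r hr
  have s3 : lav μ (fun z => Pot μ p g Λ1 r z ^ p) x r ≤
      ENNReal.ofReal ((2 * r) ^ p) * (ENNReal.ofReal (D * A) *
        lav μ (fun y => g y ^ p) x ((2 * Λ1 + 1) * r)) := by
    have h5 := h3 Λ1 (by linarith) g hg x r r hr hr
    have h6 : ∫⁻ y in ball x (r + Λ1 * r), g y ^ p ∂μ ≤
        lav μ (fun y => g y ^ p) x ((2 * Λ1 + 1) * r) * (ENNReal.ofReal A * μ (ball x r)) := by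
      calc ∫⁻ y in ball x (r + Λ1 * r), g y ^ p ∂μ
          ≤ ∫⁻ y in ball x ((2 * Λ1 + 1) * r), g y ^ p ∂μ :=
            lintegral_mono_set (ball_subset_ball (by nlinarith))
        _ = lav μ (fun y => g y ^ p) x ((2 * Λ1 + 1) * r) * μ (ball x ((2 * Λ1 + 1) * r)) := by
            unfold lav
            exact (ENNReal.div_mul_cancel hp2 hf2).symm
        _ ≤ _ := by gcongr; exact hA x r hr
    conv_lhs => unfold lav
    rw [ENNReal.div_le_iff hp1 hf1]
    refine h5.trans ?_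
    calc ENNReal.ofReal (2 ^ p * D * r ^ p) * ∫⁻ y in ball x (r + Λ1 * r), g y ^ p ∂μ
        ≤ ENNReal.ofReal (2 ^ p * D * r ^ p) *
          (lav μ (fun y => g y ^ p) x ((2 * Λ1 + 1) * r) * (ENNReal.ofReal A * μ (ball x r))) := by
          gcongr
      _ = _ := by
          rw [Real.mul_rpow (by norm_num) hr.le,
            show (2:ℝ) ^ p * D * r ^ p = (2 ^ p * r ^ p) * D by ring,
            ENNReal.ofReal_mul (by positivity), ENNReal.ofReal_mul (by linarith : 0 ≤ D)]
          ring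
  have s4 : (lav μ (fun z => Pot μ p g Λ1 r z ^ p) x r) ^ (1 / p) ≤
      ENNReal.ofReal (2 * r) * (ENNReal.ofReal (D * A) *
        (lav μ (fun y => g y ^ p) x ((2 * Λ1 + 1) * r)) ^ (1 / p)) := by
    refine (ENNReal.rpow_le_rpow s3 (by positivity)).trans ?_
    rw [ENNReal.mul_rpow_of_nonneg _ _ (by positivity), ENNReal.ofReal_rpow_of_nonneg (by positivity)
      (by positivity), ← Real.rpow_mul (by positivity), mul_one_div_cancel (by linarith),
      Real.rpow_one]
    gcongr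
    exact rpA (by nlinarith) hp le_rfl
  calc _ ≤ _ := s1
    _ ≤ _ := by gcongr; exact s2.trans s4

omit [ProperSpace X] in
lemma mean_one_sub (hD : Dbl μ D) {φ : X → ℝ} {x : X} {r : ℝ} (hr : 0 < r)
    (hφ : IntegrableOn φ (ball x r) μ) :
    mean μ (fun y => 1 - φ y) x r = 1 - mean μ φ x r := by
  have : IsFiniteMeasure (μ.restrict (ball x r)) := ⟨by simpa using hD.fin x r⟩
  have hB : 0 < μ.real (ball x r) := ENNReal.toReal_pos (hD.pos x r hr).ne' (hD.fin x r).ne
  unfold mean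
  rw [setAverage_eq, setAverage_eq, smul_eq_mul, smul_eq_mul, integral_sub (integrable_const 1) hφ]
  simp only [integral_const, smul_eq_mul, Measure.real, Measure.restrict_apply,
    MeasurableSet.univ, univ_inter]
  rw [Measure.real] at hB
  field_simp

omit [ProperSpace X] [BorelSpace X] in
lemma sep_symm {V : Set X} {φ : X → ℝ} {g : X → ℝ≥0∞} {O : Set X} (h : Sep μ V φ g O) :
    Sep μ Vᶜ φ g O where
  meas := h.meas.compl
  mphi := h.mphi
  nonneg := h.nonneg
  le_one := h.le_one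
  ug := h.ug
  isOpen := h.isOpen
  eq_one := h.eq_one
  alt := fun z hz => by
    rw [compl_compl]
    exact (h.alt z hz).symm

theorem main {X : Type*} [MetricSpace X] [ProperSpace X] [MeasurableSpace X] [BorelSpace X]
    (μ : Measure X) (p C L D : ℝ) (hD : Dbl μ D) (h : PI μ p C L) (h0 : S_BASIC μ p)
    (h1 : S_LD μ) (h2 : S_POT1 μ p D) (h3 : S_POT2 μ p D) (h4 : S_JEN μ p) : S_PAIR μ p := by
  have hp := h.one_lt
  have hD1 := hD.one_le
  have hC := h.nonneg
  have hsf : SFinite μ := sfin hD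
  obtain ⟨K0, Λ0, hK0, hΛ0, hbasic⟩ := h0 (1 / (2 * D ^ 2)) (by positivity)
  set Λ1 : ℝ := max Λ0 L with hΛ1d
  have hΛ1 : 1 ≤ Λ1 := hΛ0.trans (le_max_left _ _)
  obtain ⟨A, hA1, hA⟩ := dcomp hD (2 * Λ1 + 1)
  have cmp : ∀ a b : ℝ, 1 ≤ a → a ≤ b → b ≤ 2 * Λ1 + 1 → ∀ (f : X → ℝ≥0∞) (x : X) (r : ℝ), 0 < r →
      lav μ f x (a * r) ≤ ENNReal.ofReal A * lav μ f x (b * r) := by
    intro a b ha hab hb f x r hr
    refine lavcomp hD (by positivity) (by nlinarith) ?_ f
    calc μ (ball x (b * r)) ≤ μ (ball x ((2 * Λ1 + 1) * r)) :=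
          measure_mono (ball_subset_ball (by nlinarith))
      _ ≤ ENNReal.ofReal A * μ (ball x r) := hA x r hr
      _ ≤ ENNReal.ofReal A * μ (ball x (a * r)) := by
          gcongr
          nlinarith
  set K1 : ℝ := (C + K0) * A with hK1d
  have hK1 : 0 ≤ K1 := by positivity
  refine ⟨2 * (D * K1 * 2 * A + K1 * A + K1 * (D + 1) * 2 * (D * A)) + 1, 2 * Λ1 + 1, by positivity,
    by linarith, fun V φ g O hS x r hr => ?_⟩
  have hφb : ∀ y, |φ y| ≤ 1 := fun y => abs_le.2 ⟨by linarith [hS.nonneg y], hS.le_one y⟩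
  have hφLI : LI μ φ := fun x r => bdd_int hD hS.mphi.aemeasurable hφb x r
  have hPPφ : PP μ p K1 Λ1 φ g := by
    intro x r hr
    refine (h.poin φ g hφLI hS.ug x r hr).trans ?_
    have h5 := rpA hA1 hp (cmp L Λ1 h.one_le (le_max_right _ _) (by linarith)
      (fun y => g y ^ p) x r hr)
    calc ENNReal.ofReal (C * r) * (lav μ (fun y => g y ^ p) x (L * r)) ^ (1 / p)
        ≤ ENNReal.ofReal (C * r) *
          (ENNReal.ofReal A * (lav μ (fun y => g y ^ p) x (Λ1 * r)) ^ (1 / p)) := by gcongr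
      _ = ENNReal.ofReal (C * r * A) * (lav μ (fun y => g y ^ p) x (Λ1 * r)) ^ (1 / p) := by
          rw [← mul_assoc, ← ENNReal.ofReal_mul (by positivity)]
      _ ≤ _ := by
          gcongr ENNReal.ofReal ?_ * _
          rw [hK1d]
          have : 0 ≤ K0 * A * r := by positivity
          nlinarith
  have hP := h2 K1 Λ1 hK1 hΛ1 φ g hφLI hPPφ
  have hB : ∀ V : Set X, Sep μ V φ g O → ∀ z s, 0 < s → Amb μ V (1 / (2 * D ^ 2)) z s →
      ENNReal.ofReal (1 - mean μ φ z s) ≤ ENNReal.ofReal K1 *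
        (ENNReal.ofReal s * (lav μ (fun y => g y ^ p) z (Λ1 * s)) ^ (1 / p)) := by
    intro V hV z s hs hamb
    have h5 := hbasic V φ g O hV z s hs hamb
    rw [ee_rpow hp g Λ0 z hs] at h5
    refine h5.trans ?_
    have h6 := rpA hA1 hp (cmp Λ0 Λ1 hΛ0 (le_max_left _ _) (by linarith)
      (fun y => g y ^ p) z s hs)
    calc ENNReal.ofReal K0 * (ENNReal.ofReal s * (lav μ (fun y => g y ^ p) z (Λ0 * s)) ^ (1 / p))
        ≤ ENNReal.ofReal K0 * (ENNReal.ofReal s *
          (ENNReal.ofReal A * (lav μ (fun y => g y ^ p) z (Λ1 * s)) ^ (1 / p))) := by gcongr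
      _ = ENNReal.ofReal (K0 * A) * (ENNReal.ofReal s *
          (lav μ (fun y => g y ^ p) z (Λ1 * s)) ^ (1 / p)) := by
          rw [ENNReal.ofReal_mul hK0.le]; ring
      _ ≤ _ := by
          gcongr ENNReal.ofReal ?_ * _
          rw [hK1d]
          have : 0 ≤ C * A := by positivity
          nlinarith
  set T : ℝ≥0∞ := (lav μ (fun y => g y ^ p) x ((2 * Λ1 + 1) * r)) ^ (1 / p) with hT
  set v : X → ℝ := V.indicator (fun y => 1 - φ y) with hv
  have h1φ : Measurable fun y => 1 - φ y := hS.mphi.const_sub 1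
  have hvm : AEMeasurable v μ := h1φ.aemeasurable.indicator₀ hS.meas
  have hv0 : ∀ y, 0 ≤ v y := fun y => indicator_nonneg (fun y _ => by linarith [hS.le_one y]) y
  have hv1 : ∀ y, v y ≤ 1 - φ y := fun y => by
    by_cases hy : y ∈ V
    · rw [hv, indicator_of_mem hy]
    · rw [hv, indicator_of_notMem hy]; linarith [hS.le_one y]
  have hvb : ∀ y, |v y| ≤ 1 := fun y => abs_le.2
    ⟨by linarith [hv0 y], by linarith [hv1 y, hS.nonneg y]⟩
  have hvint := bdd_int hD hvm hvb x r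
  have hr2 : (0:ℝ) < 2 * r := by positivity
  -- conversion of a bound for the mean deviation into the claim
  have fin : ∀ c K' : ℝ, 0 ≤ K' →
      2 * K' ≤ 2 * (D * K1 * 2 * A + K1 * A + K1 * (D + 1) * 2 * (D * A)) + 1 →
      lav μ (fun y => ENNReal.ofReal |v y - c|) x r ≤ ENNReal.ofReal (K' * r) * T →
      osc μ v x r ≤ ENNReal.ofReal
        ((2 * (D * K1 * 2 * A + K1 * A + K1 * (D + 1) * 2 * (D * A)) + 1) * r) * T := by
    intro c K' hK' hle hb
    calc osc μ v x r ≤ 2 * lav μ (fun y => ENNReal.ofReal |v y - c|) x r := osc_le hD hr hvint c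
      _ ≤ 2 * (ENNReal.ofReal (K' * r) * T) := by gcongr
      _ = ENNReal.ofReal (2 * K' * r) * T := by
          rw [← mul_assoc, show (2 : ℝ≥0∞) = ENNReal.ofReal 2 by simp,
            ← ENNReal.ofReal_mul (by norm_num)]
          congr 2; ring
      _ ≤ _ := by gcongr
  have hKa : 0 ≤ D * K1 * 2 * A := by positivity
  have hKb : 0 ≤ K1 * A := by positivity
  have hKc : 0 ≤ K1 * (D + 1) * 2 * (D * A) := by positivity
  by_cases hb : dens μ V x (2 * r) < ENNReal.ofReal (1 / (2 * D ^ 2))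
  · -- case B
    have h5 := caseB hD hp h3 h4 hK1 hΛ1 hA1 hA V φ g hS.ug.1 hr hb (ae_DZ hD h1 hS.meas) hP
      (hB V hS)
    refine fin 0 (K1 * (D + 1) * 2 * (D * A)) hKc (by linarith) ?_
    have e : (fun y => ENNReal.ofReal |v y - 0|) = fun y => ENNReal.ofReal (v y) := by
      funext y; rw [sub_zero, abs_of_nonneg (hv0 y)]
    rw [e]
    refine h5.trans (le_of_eq ?_)
    rw [show K1 * (D + 1) * 2 * (D * A) * r = (K1 * (D + 1)) * ((2 * r) * (D * A)) by ring,
      ENNReal.ofReal_mul (p := K1 * (D + 1)) (by positivity),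
      ENNReal.ofReal_mul (p := 2 * r) hr2.le]
    ring
  by_cases hc : dens μ Vᶜ x (2 * r) < ENNReal.ofReal (1 / (2 * D ^ 2))
  · -- case C
    have hS' := sep_symm hS
    have h5 := caseB hD hp h3 h4 hK1 hΛ1 hA1 hA Vᶜ φ g hS.ug.1 hr hc
      (ae_DZ hD h1 hS.meas.compl) hP (hB Vᶜ hS')
    refine fin (1 - mean μ φ x r) (K1 * A + K1 * (D + 1) * 2 * (D * A)) (by positivity)
      (by linarith) ?_
    have e1 : lav μ (fun y => ENNReal.ofReal |v y - (1 - mean μ φ x r)|) x r ≤
        osc μ φ x r + lav μ (fun y => ENNReal.ofReal (Vᶜ.indicator (fun y => 1 - φ y) y)) x r := by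
      unfold osc lav
      rw [← ENNReal.add_div, ← lintegral_add_left
        ((hS.mphi.sub_const _).abs.ennreal_ofReal)]
      gcongr ?_ / _
      refine lintegral_mono fun y => ?_
      have hw0 : 0 ≤ Vᶜ.indicator (fun y => 1 - φ y) y :=
        indicator_nonneg (fun y _ => by linarith [hS.le_one y]) y
      rw [← ENNReal.ofReal_add (abs_nonneg _) hw0]
      refine ENNReal.ofReal_le_ofReal ?_
      by_cases hy : y ∈ V
      · rw [hv, indicator_of_mem hy, indicator_of_notMem (by simpa using hy), add_zero]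
        rw [show 1 - φ y - (1 - mean μ φ x r) = -(φ y - mean μ φ x r) by ring, abs_neg]
      · rw [hv, indicator_of_notMem hy, indicator_of_mem (by simpa using hy)]
        rw [show 0 - (1 - mean μ φ x r) = -((φ y - mean μ φ x r) + (1 - φ y)) by ring, abs_neg]
        refine (abs_add_le _ _).trans ?_
        rw [abs_of_nonneg (show 0 ≤ 1 - φ y by linarith [hS.le_one y])]
    have e2 : osc μ φ x r ≤ ENNReal.ofReal (K1 * A * r) * T := by
      refine (hPPφ x r hr).trans ?_
      have h6 := rpA hA1 hp (cmp Λ1 (2 * Λ1 + 1) hΛ1 (by linarith) le_rfl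
        (fun y => g y ^ p) x r hr)
      calc ENNReal.ofReal (K1 * r) * (lav μ (fun y => g y ^ p) x (Λ1 * r)) ^ (1 / p)
          ≤ ENNReal.ofReal (K1 * r) * (ENNReal.ofReal A * T) := by gcongr
        _ = _ := by
            rw [← mul_assoc, ← ENNReal.ofReal_mul (by positivity)]
            congr 2; ring
    calc _ ≤ _ := e1
      _ ≤ ENNReal.ofReal (K1 * A * r) * T + ENNReal.ofReal (K1 * (D + 1)) *
          (ENNReal.ofReal (2 * r) * (ENNReal.ofReal (D * A) * T)) := add_le_add e2 h5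
      _ = _ := by
          rw [show (K1 * A + K1 * (D + 1) * 2 * (D * A)) * r =
            K1 * A * r + (K1 * (D + 1)) * ((2 * r) * (D * A)) by ring,
            ENNReal.ofReal_add (by positivity) (by positivity),
            ENNReal.ofReal_mul (p := K1 * (D + 1)) (by positivity), ENNReal.ofReal_mul (p := 2 * r) hr2.le]
          ring
  · -- case A
    have hamb : Amb μ V (1 / (2 * D ^ 2)) x (2 * r) := ⟨not_lt.1 hb, not_lt.1 hc⟩
    have h5 := hB V hS x (2 * r) hr2 hamb
    refine fin 0 (D * K1 * 2 * A) hKa (by linarith) ?_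
    have e : (fun y => ENNReal.ofReal |v y - 0|) = fun y => ENNReal.ofReal (v y) := by
      funext y; rw [sub_zero, abs_of_nonneg (hv0 y)]
    rw [e]
    have h6 := rpA hA1 hp (cmp (2 * Λ1) (2 * Λ1 + 1) (by linarith) (by linarith) le_rfl
        (fun y => g y ^ p) x r hr)
    calc lav μ (fun y => ENNReal.ofReal (v y)) x r
        ≤ lav μ (fun y => ENNReal.ofReal (1 - φ y)) x r :=
          lav_mono x r fun y => ENNReal.ofReal_le_ofReal (hv1 y)
      _ ≤ ENNReal.ofReal D * lav μ (fun y => ENNReal.ofReal (1 - φ y)) x (2 * r) :=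
          lavcomp hD hr (by linarith) (hD.dbl x r hr) _
      _ = ENNReal.ofReal D * ENNReal.ofReal (1 - mean μ φ x (2 * r)) := by
          rw [lav_ofReal hD hr2 (v := fun y => 1 - φ y)
            (bdd_int hD h1φ.aemeasurable (M := 1) (fun y => abs_le.2
              ⟨by linarith [hS.le_one y], by linarith [hS.nonneg y]⟩) x _)
            (fun y => by linarith [hS.le_one y]), mean_one_sub hD hr2 (hφLI x _)]
      _ ≤ ENNReal.ofReal D * (ENNReal.ofReal K1 * (ENNReal.ofReal (2 * r) *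
          (lav μ (fun y => g y ^ p) x (Λ1 * (2 * r))) ^ (1 / p))) := by gcongr
      _ ≤ ENNReal.ofReal D * (ENNReal.ofReal K1 * (ENNReal.ofReal (2 * r) *
          (ENNReal.ofReal A * T))) := by
          rw [show Λ1 * (2 * r) = 2 * Λ1 * r by ring]
          gcongr
      _ = _ := by
          rw [show D * K1 * 2 * A * r = D * (K1 * ((2 * r) * A)) by ring,
            ENNReal.ofReal_mul (p := D) (by positivity), ENNReal.ofReal_mul (p := K1) hK1,
            ENNReal.ofReal_mul (p := 2 * r) hr2.le]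
          ring

end final

end Pool.Agent.W250.FDPair
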